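import Mathlib
import Pool.Agent.TH888.C.Val
import Pool.Agent.H447R2.ML.Spec

set_option autoImplicit false

/-!
# The metric law for the Fibonacci primes

Let `U x 0 = 0`, `U x 1 = 1`, `U x (n + 2) = x * U x (n + 1) + U x n` (the Fibonacci polynomials), so that
`U 1 n` is the Fibonacci number.  For a function `A`, a real number `x > 0` and a prime `p` let `W A x p` be
the `p`-rough part (the product, with multiplicity, of the prime factors larger than `p`) of
`⌊A x * U x p⌋`.  If `A 1 = 1`, then `W A 1 p` is the Fibonacci number with the index `p`, for all primes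
`p > 5`.  For a set `S` let `M A S x n` be the number of primes `p ≤ n` in `S` with `W A x p` prime, and let
`V S n` be the sum of `log p / p` over the primes `p ≤ n` in `S`.  We prove that for every positive `C ^ 2`
function `A` and almost every `x > 0` the number of primes `p ≤ n` with `W A x p` prime is
`(e ^ γ / log α) log n + O((log n) ^ (1/2) (log log n) ^ (5/2))`, where `α = (x + √(x ^ 2 + 4)) / 2` is the
dominant root, that for every set `S` and almost every `x` there are infinitely many such primes `p` in `S`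
if and only if `V S n` is unbounded, and that in this case
`M A S x n = (e ^ γ / log α) V S n + O((V L) ^ (1/2) (log (V L)) ^ 2)` with `V = V S n`, `L = log log n`.
-/

namespace Pool.Agent.Results.MP_5893d7_nt.FibonacciLaw

open Filter Topology MeasureTheory Asymptotics

/-- The Fibonacci polynomials: `U 1 n` is the Fibonacci number with the index `n`. -/
noncomputable def U (x : ℝ) : ℕ → ℝ
  | 0 => 0
  | 1 => 1
  | (n + 2) => x * U x (n + 1) + U x n

/-- The product, with multiplicity, of the prime factors of `m` that are larger than `p`. -/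
def roughPart (p m : ℕ) : ℕ := (m.primeFactorsList.filter (fun r => p < r)).prod

/-- The `p`-rough part of `⌊A x * U x p⌋`. -/
noncomputable def W (A : ℝ → ℝ) (x : ℝ) (p : ℕ) : ℕ := roughPart p ⌊A x * U x p⌋₊

open Classical in
/-- The number of primes `p ≤ n` in the set `S` for which `W A x p` is prime. -/
noncomputable def M (A : ℝ → ℝ) (S : Set ℕ) (x : ℝ) (n : ℕ) : ℕ :=
  ((Finset.range (n + 1)).filter (fun p => p.Prime ∧ p ∈ S ∧ (W A x p).Prime)).card

open Classical in
/-- The sum of `log p / p` over the primes `p ≤ n` in the set `S`. -/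
noncomputable def V (S : Set ℕ) (n : ℕ) : ℝ :=
  ∑ p ∈ (Finset.range (n + 1)).filter (fun p => p.Prime ∧ p ∈ S), Real.log p / p

lemma U_eq (x : ℝ) : ∀ n : ℕ, U x n = Pool.Agent.W66C.lU x n
  | 0 => rfl
  | 1 => rfl
  | (n + 2) => by
      show x * U x (n + 1) + U x n = x * Pool.Agent.W66C.lU x (n + 1) + Pool.Agent.W66C.lU x n
      rw [U_eq x (n + 1), U_eq x n]

lemma V_eq (S : Set ℕ) (n : ℕ) : V S n = Pool.Agent.TH888.R.VS S n := by
  classical
  unfold V Pool.Agent.TH888.R.VS
  rw [Finset.sum_filter]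
  refine Finset.sum_congr rfl fun p _ => ?_
  by_cases h : p.Prime ∧ p ∈ S
  · rw [if_pos h, if_pos ⟨h.2, h.1⟩]
    rfl
  · rw [if_neg h, if_neg fun h1 => h ⟨h1.2, h1.1⟩]

lemma U_one (n : ℕ) : U 1 n = (Nat.fib n : ℝ) := by
  induction n using Nat.twoStepInduction with
  | zero => simp [U]
  | one => simp [U]
  | more n h1 h2 =>
    show 1 * U 1 (n + 1) + U 1 n = _
    rw [h1, h2, Nat.fib_add_two]
    push_cast
    ring

lemma fib_eq (n : ℕ) : Pool.Agent.H447R2.ML.U 1 n = Nat.fib n := by
  induction n using Nat.twoStepInduction with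
  | zero => rfl
  | one => rfl
  | more n h1 h2 =>
    rw [Pool.Agent.H447R2.ML.U_add_two, h1, h2, Nat.fib_add_two]
    ring

/-- At `x = 1` the number `W` is the Fibonacci number. -/
lemma W_fib {A : ℝ → ℝ} (hA : A 1 = 1) {p : ℕ} (hp : p.Prime) (h5 : 5 < p) :
    W A 1 p = Nat.fib p := by
  have hd : ¬ p ∣ 1 ^ 2 + 4 := by
    intro h
    have := Nat.le_of_dvd (by norm_num) h
    omega
  have h := Pool.Agent.H447R2.ML.rough_U 1 one_pos hp (by omega) hd (x := A 1 * U 1 p) (by
    rw [hA, one_mul, U_one, fib_eq])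
  rw [fib_eq] at h
  exact h

lemma M_eq (A : ℝ → ℝ) (S : Set ℕ) (x : ℝ) (n : ℕ) :
    M A S x n = Pool.Agent.TH888.R.cS S (fun p => ⌊A x * Pool.Agent.W66C.lU x p⌋₊) n := by
  classical
  unfold M Pool.Agent.TH888.R.cS W
  simp only [U_eq]
  rfl

lemma W_eq (A : ℝ → ℝ) (x : ℝ) (p : ℕ) :
    W A x p = Pool.Agent.H305R2.roughPart p ⌊A x * Pool.Agent.W66C.lU x p⌋₊ := by
  unfold W
  rw [U_eq]
  rfl

/-- For `A 1 = 1` and `x = 1` the values are the Fibonacci numbers, and along every positive `C ^ 2` curve
of amplitudes the law holds with a square root error term for almost every real parameter `x > 0`; for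
every set of primes the number of prime values is finite or infinite according to the weight of the set,
and in the second case it obeys the corresponding law. -/
theorem result :
    (∀ A : ℝ → ℝ, A 1 = 1 → ∀ p : ℕ, p.Prime → 5 < p → W A 1 p = Nat.fib p) ∧
    (∀ A : ℝ → ℝ, ContDiffOn ℝ 2 A (Set.Ioi 0) → (∀ x : ℝ, 0 < x → 0 < A x) →
      (∀ᵐ x : ℝ, 0 < x →
        (fun n : ℕ => (M A Set.univ x n : ℝ) -
          Real.exp Real.eulerMascheroniConstant / Real.log ((x + Real.sqrt (x ^ 2 + 4)) / 2) *
            Real.log n) =O[atTop]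
        (fun n : ℕ => Real.sqrt (Real.log n) * (Real.log (Real.log n)) ^ ((5 : ℝ) / 2))) ∧
      (∀ S : Set ℕ, Tendsto (V S) atTop atTop → ∀ᵐ x : ℝ, 0 < x →
        (fun n : ℕ => (M A S x n : ℝ) -
          Real.exp Real.eulerMascheroniConstant / Real.log ((x + Real.sqrt (x ^ 2 + 4)) / 2) *
            V S n) =O[atTop]
        (fun n : ℕ => Real.sqrt (V S n * Real.log (Real.log n)) *
          (Real.log (V S n * Real.log (Real.log n))) ^ 2)) ∧
      (∀ S : Set ℕ, ∀ᵐ x : ℝ, 0 < x →
        ({p : ℕ | p.Prime ∧ p ∈ S ∧ (W A x p).Prime}.Infinite ↔ Tendsto (V S) atTop atTop))) := by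
  have hV : ∀ S, V S = Pool.Agent.TH888.R.VS S := fun S => funext fun n => V_eq S n
  refine ⟨fun A hA p hp h5 => W_fib hA hp h5, fun A hA hpos => ⟨?_, fun S hS => ?_, fun S => ?_⟩⟩
  · filter_upwards [Pool.Agent.TH888.C.pt_U_curve Set.univ hA hpos] with x hx h0
    obtain ⟨B, hB, h⟩ := (hx h0).law Pool.Agent.TH888.R.VS_univ_tendsto
    simp only [M_eq]
    exact Pool.Agent.TH888.R.bigO_all hB h
  · rw [hV] at hS ⊢
    filter_upwards [Pool.Agent.TH888.C.pt_U_curve S hA hpos] with x hx h0
    obtain ⟨B, hB, h⟩ := (hx h0).law hS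
    simp only [M_eq]
    exact Pool.Agent.TH888.R.bigO_set hB hS h
  · rw [hV]
    filter_upwards [Pool.Agent.TH888.C.pt_U_curve S hA hpos] with x hx h0
    simp only [W_eq]
    constructor
    · intro hi
      by_contra hn
      exact hi ((hx h0).fin hn)
    · exact (hx h0).inf

end Pool.Agent.Results.MP_5893d7_nt.FibonacciLaw
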