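import Mathlib
import Pool.Agent.Y895.OL.A8
import Pool.Agent.Y895.PS.T5

set_option autoImplicit false

/-!
# Random numbers that share their leading digits with the Fibonacci and the Lucas numbers

Let `Q` be a sequence of natural numbers with `Q (n + 2) = Q (n + 1) + Q n`, not identically zero,
for instance the Fibonacci or the Lucas numbers.  Fix a base `b ≥ 2`.  For a sequence `m` and a real
number `t` in `[0, 1)` replace the last `m p` base `b` digits of `Q p` by the first `m p` base `b`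
digits of `t`; let `N b Q m t p` be the result and let `W b Q m t p` be its `p`-rough part (the
product, with multiplicity, of its prime factors larger than `p`).  For a set `S` let `M b Q m S t n`
be the number of primes `p ≤ n` in `S` with `W b Q m t p` prime, and let `V S n` be the sum of
`log p / p` over the primes `p ≤ n` in `S`.

We prove the following for every eventually monotone sequence `m` for which the upper part
`k = ⌊Q p / b ^ m p⌋` tends to infinity; let `c = e ^ γ / log ((1 + √5) / 2)`.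

* A positive proportion of prescribed digits: for every `ε` in `(0, 1)` there is `δ > 0`, which does
  not depend on `b` and `Q`, such that, if `log k ≤ 2 δ p` for large `p`, then for every set `S` and
  almost every `t` the number of prime values is infinite if and only if `V S n → ∞`, and in this
  case it lies between `(1 - ε) c V S n` and `(1 + ε) c V S n` for large `n`.
* If `log k = o(p)`, then for every set `S` with `V S n → ∞` and almost every `t` the number of prime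
  values is asymptotic to `c V S n`.
* If `log k ≤ 2 κ p / log p` for large `p`, where `κ` is a positive constant depending on `b` only,
  then the number of prime values obeys for almost every `t` the law with the constant `c` and a
  square root error term, for the set of all primes and for every set `S` of primes with
  `V S n → ∞`.
-/

namespace Pool.Agent.Results.MP_5893d7_nt.LeadingDigits

open Filter Topology MeasureTheory Asymptotics

/-- The product, with multiplicity, of the prime factors of `m` that are larger than `p`. -/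
def roughPart (p m : ℕ) : ℕ := (m.primeFactorsList.filter (fun r => p < r)).prod

/-- The Lucas numbers. -/
def luc : ℕ → ℕ
  | 0 => 2
  | 1 => 1
  | (n + 2) => luc (n + 1) + luc n

/-- `Q p` with the last `m p` base `b` digits replaced by the first `m p` digits of `t`. -/
noncomputable def N (b : ℕ) (Q m : ℕ → ℕ) (t : ℝ) (p : ℕ) : ℕ :=
  b ^ m p * (Q p / b ^ m p) + ⌊(b : ℝ) ^ m p * t⌋₊

/-- The `p`-rough part of `N b Q m t p`. -/
noncomputable def W (b : ℕ) (Q m : ℕ → ℕ) (t : ℝ) (p : ℕ) : ℕ := roughPart p (N b Q m t p)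

open Classical in
/-- The number of primes `p ≤ n` in the set `S` for which `W b Q m t p` is prime. -/
noncomputable def M (b : ℕ) (Q m : ℕ → ℕ) (S : Set ℕ) (t : ℝ) (n : ℕ) : ℕ :=
  ((Finset.range (n + 1)).filter (fun p => p.Prime ∧ p ∈ S ∧ (W b Q m t p).Prime)).card

open Classical in
/-- The sum of `log p / p` over the primes `p ≤ n` in the set `S`. -/
noncomputable def V (S : Set ℕ) (n : ℕ) : ℝ :=
  ∑ p ∈ (Finset.range (n + 1)).filter (fun p => p.Prime ∧ p ∈ S), Real.log p / p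

/-- A number of free digits which leaves about `κ p / (log b log p)` digits prescribed. -/
noncomputable def free (b : ℕ) (κ : ℝ) (p : ℕ) : ℕ :=
  ⌊(p * Real.log ((1 + Real.sqrt 5) / 2) - κ * p / Real.log p) / Real.log b⌋₊

/-- A number of free digits which leaves about `δ p / log b` digits prescribed. -/
noncomputable def most (b : ℕ) (δ : ℝ) (p : ℕ) : ℕ :=
  ⌊(p * Real.log ((1 + Real.sqrt 5) / 2) - δ * p) / Real.log b⌋₊

lemma V_eq (S : Set ℕ) (n : ℕ) : V S n = Pool.Agent.TH888.R.VS S n := by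
  classical
  unfold V Pool.Agent.TH888.R.VS
  rw [Finset.sum_filter]
  refine Finset.sum_congr rfl fun p _ => ?_
  by_cases h : p.Prime ∧ p ∈ S
  · rw [if_pos h, if_pos ⟨h.2, h.1⟩]
    rfl
  · rw [if_neg h, if_neg fun h1 => h ⟨h1.2, h1.1⟩]

lemma M_eq (b : ℕ) (Q m : ℕ → ℕ) (S : Set ℕ) (t : ℝ) (n : ℕ) :
    M b Q m S t n = Pool.Agent.TH888.R.cS S (N b Q m t) n := by
  classical
  unfold M Pool.Agent.TH888.R.cS
  rfl

lemma Q_bounds {Q : ℕ → ℕ} (hQ : ∀ n, Q (n + 2) = Q (n + 1) + Q n) (h0 : 0 < Q 0 + Q 1) (n : ℕ)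
    (hn : 2 ≤ n) : 1 / 6 * ((1 + Real.sqrt 5) / 2) ^ n ≤ Q n ∧
      (Q n : ℝ) ≤ ((Q 0 + Q 1 : ℕ) : ℝ) * ((1 + Real.sqrt 5) / 2) ^ n := by
  set φ := (1 + Real.sqrt 5) / 2 with hφ
  have h5 : Real.sqrt 5 ^ 2 = 5 := Real.sq_sqrt (by norm_num)
  have hs0 : 0 ≤ Real.sqrt 5 := Real.sqrt_nonneg 5
  have hs2 : Real.sqrt 5 ≤ 2.24 := by
    rw [Real.sqrt_le_iff]
    norm_num
  have hs1 : 2 ≤ Real.sqrt 5 := by
    rw [Real.le_sqrt' (by norm_num)]
    norm_num
  have hφ2 : φ ^ 2 = φ + 1 := by rw [hφ]; nlinarith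
  have hφ1 : 1 ≤ φ := by rw [hφ]; linarith
  have hφ3 : φ ≤ 1.62 := by rw [hφ]; linarith
  have hrec : ∀ k : ℕ, φ ^ (k + 2) = φ ^ (k + 1) + φ ^ k := by
    intro k
    calc φ ^ (k + 2) = φ ^ k * φ ^ 2 := pow_add _ _ _
      _ = φ ^ k * (φ + 1) := by rw [hφ2]
      _ = _ := by ring
  have h01 : (1 : ℝ) ≤ ((Q 0 + Q 1 : ℕ) : ℝ) := by exact_mod_cast h0
  constructor
  · obtain ⟨k, rfl⟩ := Nat.exists_eq_add_of_le' hn
    clear hn
    induction k using Nat.twoStepInduction with
    | zero =>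
      rw [hQ 0]
      have : ((Q (0 + 1) + Q 0 : ℕ) : ℝ) = ((Q 0 + Q 1 : ℕ) : ℝ) := by push_cast; ring
      rw [this, zero_add, hφ2]
      linarith
    | one =>
      have e : Q (1 + 2) = Q 0 + Q 1 + Q 1 := by rw [hQ 1, hQ 0]; ring
      rw [e]
      have e2 : φ ^ (1 + 2) = 2 * φ + 1 := by
        calc φ ^ (1 + 2) = φ * φ ^ 2 := by ring
          _ = φ * (φ + 1) := by rw [hφ2]
          _ = φ ^ 2 + φ := by ring
          _ = (φ + 1) + φ := by rw [hφ2]
          _ = _ := by ring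
      rw [e2]
      push_cast at h01 ⊢
      have : (0 : ℝ) ≤ Q 1 := Nat.cast_nonneg _
      linarith
    | more k ih1 ih2 =>
      have e : Q (k + 2 + 2) = Q (k + 1 + 2) + Q (k + 2) := hQ (k + 2)
      have e2 := hrec (k + 2)
      rw [e, e2]
      push_cast
      have e3 : φ ^ (k + 2 + 1) = φ ^ (k + 1 + 2) := by congr 1
      rw [e3]
      linarith
  · clear hn
    induction n using Nat.twoStepInduction with
    | zero =>
      push_cast
      have : (0 : ℝ) ≤ Q 1 := Nat.cast_nonneg _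
      linarith
    | one =>
      push_cast
      have a1 : (0 : ℝ) ≤ Q 1 := Nat.cast_nonneg _
      have a0 : (0 : ℝ) ≤ Q 0 := Nat.cast_nonneg _
      rw [pow_one]
      nlinarith
    | more n ih1 ih2 =>
      rw [hQ n, hrec n]
      push_cast at ih1 ih2 ⊢
      linarith

/-- The Fibonacci and the Lucas numbers are such sequences.  The leading digits are those of `Q p`.
With a small positive proportion of prescribed digits the dichotomy and the law with a constant close
to the right one hold for almost every `t` and every set of primes, with `o(p)` prescribed digits the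
law with this constant, and with `κ p / log p` prescribed digits the law with a square root error
term. -/
theorem result :
    ((∀ n, Nat.fib (n + 2) = Nat.fib (n + 1) + Nat.fib n) ∧ 0 < Nat.fib 0 + Nat.fib 1 ∧
      (∀ n, luc (n + 2) = luc (n + 1) + luc n) ∧ 0 < luc 0 + luc 1) ∧
    (∀ b ≥ 2, ∀ (Q m : ℕ → ℕ) (t : ℝ) (p : ℕ), 0 ≤ t → t < 1 →
      N b Q m t p / b ^ m p = Q p / b ^ m p) ∧
    (∀ ε : ℝ, 0 < ε → ε < 1 → ∃ δ : ℝ, 0 < δ ∧ ∀ b ≥ 2,
      ∀ Q : ℕ → ℕ, (∀ n, Q (n + 2) = Q (n + 1) + Q n) → 0 < Q 0 + Q 1 →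
      ((∀ᶠ p in atTop, most b δ p ≤ most b δ (p + 1)) ∧
        Tendsto (fun p => Q p / b ^ most b δ p) atTop atTop ∧
        ∀ᶠ p : ℕ in atTop, Real.log (Q p / b ^ most b δ p : ℕ) ≤ 2 * δ * p) ∧
      ∀ m : ℕ → ℕ, (∀ᶠ p in atTop, m p ≤ m (p + 1)) →
        Tendsto (fun p => Q p / b ^ m p) atTop atTop →
        (∀ᶠ p : ℕ in atTop, Real.log (Q p / b ^ m p : ℕ) ≤ 2 * δ * p) →
          ∀ S : Set ℕ, ∀ᵐ t : ℝ, 0 ≤ t → t < 1 →
            ({p : ℕ | p.Prime ∧ p ∈ S ∧ (W b Q m t p).Prime}.Infinite ↔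
              Tendsto (V S) atTop atTop) ∧
            (Tendsto (V S) atTop atTop → ∀ᶠ n : ℕ in atTop,
              (1 - ε) * (Real.exp Real.eulerMascheroniConstant /
                Real.log ((1 + Real.sqrt 5) / 2)) * V S n ≤ M b Q m S t n ∧
              (M b Q m S t n : ℝ) ≤ (1 + ε) * (Real.exp Real.eulerMascheroniConstant /
                Real.log ((1 + Real.sqrt 5) / 2)) * V S n)) ∧
    (∀ b ≥ 2, ∀ Q : ℕ → ℕ, (∀ n, Q (n + 2) = Q (n + 1) + Q n) → 0 < Q 0 + Q 1 →
      ∀ m : ℕ → ℕ, (∀ᶠ p in atTop, m p ≤ m (p + 1)) →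
        Tendsto (fun p => Q p / b ^ m p) atTop atTop →
        (∀ δ : ℝ, 0 < δ → ∀ᶠ p : ℕ in atTop, Real.log (Q p / b ^ m p : ℕ) ≤ δ * p) →
          ∀ S : Set ℕ, Tendsto (V S) atTop atTop → ∀ᵐ t : ℝ, 0 ≤ t → t < 1 →
            Tendsto (fun n : ℕ => (M b Q m S t n : ℝ) / V S n) atTop
              (𝓝 (Real.exp Real.eulerMascheroniConstant / Real.log ((1 + Real.sqrt 5) / 2)))) ∧
    ∀ b ≥ 2, ∃ κ : ℝ, 0 < κ ∧
    ∀ Q : ℕ → ℕ, (∀ n, Q (n + 2) = Q (n + 1) + Q n) → 0 < Q 0 + Q 1 →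
      ((∀ᶠ p in atTop, free b κ p ≤ free b κ (p + 1)) ∧
        Tendsto (fun p => Q p / b ^ free b κ p) atTop atTop ∧
        ∀ᶠ p : ℕ in atTop, Real.log (Q p / b ^ free b κ p : ℕ) ≤ 2 * κ * p / Real.log p) ∧
      ∀ m : ℕ → ℕ, (∀ᶠ p in atTop, m p ≤ m (p + 1)) →
        Tendsto (fun p => Q p / b ^ m p) atTop atTop →
        (∀ᶠ p : ℕ in atTop, Real.log (Q p / b ^ m p : ℕ) ≤ 2 * κ * p / Real.log p) →
          (∀ᵐ t : ℝ, 0 ≤ t → t < 1 →
            (fun n : ℕ => (M b Q m Set.univ t n : ℝ) -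
              Real.exp Real.eulerMascheroniConstant / Real.log ((1 + Real.sqrt 5) / 2) *
                Real.log n) =O[atTop]
            (fun n : ℕ => Real.sqrt (Real.log n) * (Real.log (Real.log n)) ^ ((5 : ℝ) / 2))) ∧
          (∀ S : Set ℕ, Tendsto (V S) atTop atTop → ∀ᵐ t : ℝ, 0 ≤ t → t < 1 →
            (fun n : ℕ => (M b Q m S t n : ℝ) -
              Real.exp Real.eulerMascheroniConstant / Real.log ((1 + Real.sqrt 5) / 2) *
                V S n) =O[atTop]
            (fun n : ℕ => Real.sqrt (V S n * Real.log (Real.log n)) *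
              (Real.log (V S n * Real.log (Real.log n))) ^ 2)) := by
  have hV : ∀ S, V S = Pool.Agent.TH888.R.VS S := fun S => funext fun n => V_eq S n
  have hα : 1 < (1 + Real.sqrt 5) / 2 := by
    have : 1 < Real.sqrt 5 := by rw [Real.lt_sqrt (by norm_num)]; norm_num
    linarith
  have hlα : 0 < Real.log ((1 + Real.sqrt 5) / 2) := Real.log_pos hα
  have hQb : ∀ Q : ℕ → ℕ, (∀ n, Q (n + 2) = Q (n + 1) + Q n) → 0 < Q 0 + Q 1 →
      ∀ᶠ p : ℕ in atTop, 1 / 6 * ((1 + Real.sqrt 5) / 2) ^ p ≤ Q p ∧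
        (Q p : ℝ) ≤ ((Q 0 + Q 1 : ℕ) : ℝ) * ((1 + Real.sqrt 5) / 2) ^ p := by
    intro Q hQ h01
    filter_upwards [eventually_ge_atTop 2] with p hp using Q_bounds hQ h01 p hp
  have hasy : ∀ ε : ℝ, 0 < ε → ε < 1 → ∃ δ : ℝ, 0 < δ ∧
      2 * δ < Real.log ((1 + Real.sqrt 5) / 2) ∧ ∀ b ≥ 2,
      ∀ Q : ℕ → ℕ, (∀ n, Q (n + 2) = Q (n + 1) + Q n) → 0 < Q 0 + Q 1 →
      ∀ m : ℕ → ℕ, (∀ᶠ p in atTop, m p ≤ m (p + 1)) →
        Tendsto (fun p => Q p / b ^ m p) atTop atTop →
        (∀ᶠ p : ℕ in atTop, Real.log (Q p / b ^ m p : ℕ) ≤ 2 * δ * p) →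
          ∀ S : Set ℕ, ∀ᵐ t : ℝ, 0 ≤ t → t < 1 →
            ({p : ℕ | p.Prime ∧ p ∈ S ∧ (W b Q m t p).Prime}.Infinite ↔
              Tendsto (V S) atTop atTop) ∧
            (Tendsto (V S) atTop atTop → ∀ᶠ n : ℕ in atTop,
              (1 - ε) * (Real.exp Real.eulerMascheroniConstant /
                Real.log ((1 + Real.sqrt 5) / 2)) * V S n ≤ M b Q m S t n ∧
              (M b Q m S t n : ℝ) ≤ (1 + ε) * (Real.exp Real.eulerMascheroniConstant /
                Real.log ((1 + Real.sqrt 5) / 2)) * V S n) := by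
    intro ε hε hε1
    obtain ⟨δ, hδ, hδ1, hord⟩ := Pool.Agent.Y895.PT.asy_trunc ε hε hε1
    refine ⟨δ * Real.log ((1 + Real.sqrt 5) / 2) / 2, by positivity, by nlinarith,
      fun b hb Q hQ h01 m hm ht hk S => ?_⟩
    have h1 := hord _ hα b hb (1 / 6) ((Q 0 + Q 1 : ℕ) : ℝ) (by norm_num) (by exact_mod_cast h01)
      Q m (hQb Q hQ h01) hm (Pool.Agent.Y895.OL.pow_le_of_div hb ht) (by
        filter_upwards [hk] with p hp
        have e : 2 * (δ * Real.log ((1 + Real.sqrt 5) / 2) / 2) * p =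
          δ * Real.log ((1 + Real.sqrt 5) / 2) * p := by ring
        rw [e] at hp
        exact hp) S
    filter_upwards [h1] with t ht h0 h1
    have h2 := ht h0 h1
    rw [hV]
    simp only [M_eq]
    exact ⟨h2.inf, h2.law⟩
  refine ⟨⟨fun n => by rw [Nat.fib_add_two, add_comm], by decide, fun n => rfl, by decide⟩,
    fun b hb Q m t p h0 h1 => Pool.Agent.Y895.PM.upper_digits hb h0 h1, fun ε hε hε1 => ?_,
    fun b hb Q hQ h01 m hm ht hk S hS => ?_, fun b hb => ?_⟩
  · obtain ⟨δ, hδ, hδ1, h⟩ := hasy ε hε hε1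
    refine ⟨δ, hδ, fun b hb Q hQ h01 => ⟨?_, h b hb Q hQ h01⟩⟩
    obtain ⟨h1, h2⟩ := Pool.Agent.Y895.OL.dmost_spec hb hα hδ (by linarith)
      (by norm_num : (0 : ℝ) < 1 / 6) (by exact_mod_cast h01) (hQb Q hQ h01)
    exact ⟨Eventually.of_forall fun p => Pool.Agent.Y895.OL.dmost_mono hb (by linarith) p, h1, h2⟩
  · have h1 : ∀ k : ℕ, ∀ᵐ t : ℝ, 0 ≤ t → t < 1 → ∀ᶠ n : ℕ in atTop,
        (1 - 1 / ((k : ℝ) + 2)) * (Real.exp Real.eulerMascheroniConstant /
          Real.log ((1 + Real.sqrt 5) / 2)) * V S n ≤ M b Q m S t n ∧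
        (M b Q m S t n : ℝ) ≤ (1 + 1 / ((k : ℝ) + 2)) *
          (Real.exp Real.eulerMascheroniConstant / Real.log ((1 + Real.sqrt 5) / 2)) *
            V S n := by
      intro k
      obtain ⟨δ, hδ, hδ1, h⟩ := hasy (1 / ((k : ℝ) + 2)) (by positivity) (by
        rw [div_lt_one (by positivity)]
        have : (0 : ℝ) ≤ k := Nat.cast_nonneg k
        linarith)
      filter_upwards [h b hb Q hQ h01 m hm ht (hk (2 * δ) (by positivity)) S] with t ht h0 h1
      exact (ht h0 h1).2 hS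
    filter_upwards [ae_all_iff.2 h1] with t ht h0 h1
    exact Pool.Agent.Y895.PT.lim_of_close2 (by positivity) hS fun k => ht k h0 h1
  · obtain ⟨κ, hκ, h⟩ := Pool.Agent.Y895.FB.pt_fb_trunc hb hα
    refine ⟨κ / 2, by positivity, fun Q hQ h01 => ⟨?_, fun m hm ht hk => ?_⟩⟩
    · obtain ⟨h1, h2⟩ := Pool.Agent.Y895.FB.ffree_spec (κ := κ / 2) hb hα (by positivity)
        (by norm_num : (0 : ℝ) < 1 / 6) (by exact_mod_cast h01) (hQb Q hQ h01)
      exact ⟨Pool.Agent.Y895.FB.ffree_mono hb hα (by positivity), h1, h2⟩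
    have e : 2 * (κ / 2) = κ := by ring
    rw [e] at hk
    have hpt : ∀ S : Set ℕ, ∀ᵐ t : ℝ, 0 ≤ t → t < 1 → Pool.Agent.TH888.R.Pt (N b Q m t)
        (Real.exp Real.eulerMascheroniConstant / Real.log ((1 + Real.sqrt 5) / 2)) S := fun S =>
      h (1 / 6) ((Q 0 + Q 1 : ℕ) : ℝ) (by norm_num) (by exact_mod_cast h01) Q m
        (hQb Q hQ h01) hm ht hk S
    refine ⟨?_, fun S hS => ?_⟩
    · filter_upwards [hpt Set.univ] with t ht h0 h1
      obtain ⟨B, hB, h⟩ := (ht h0 h1).law Pool.Agent.TH888.R.VS_univ_tendsto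
      simp only [M_eq]
      exact Pool.Agent.TH888.R.bigO_all hB h
    · rw [hV] at hS ⊢
      filter_upwards [hpt S] with t ht h0 h1
      obtain ⟨B, hB, h⟩ := (ht h0 h1).law hS
      simp only [M_eq]
      exact Pool.Agent.TH888.R.bigO_set hB hS h

end Pool.Agent.Results.MP_5893d7_nt.LeadingDigits
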