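import Mathlib
import Pool.Agent.TH888.C.Val
import Pool.Agent.H447R2.ML.Spec

set_option autoImplicit false

/-!
# The metric law for the Lucas primes

Let `L 0 = 2`, `L 1 = 1`, `L (n + 2) = L (n + 1) + L n` be the Lucas numbers and let `T x 0 = 2`, `T x 1 = x`,
`T x (n + 2) = x * T x (n + 1) + T x n` (the Lucas polynomials), so that `T 1 n = L n`.  For a function `A`,
a real number `x > 0` and a prime `p` let `W A x p` be the `p`-rough part (the product, with multiplicity, of
the prime factors larger than `p`) of `⌊A x * T x p⌋`.  If `A 1 = 1`, then `W A 1 p = L p` for all primes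
`p ≥ 5`.  For a set `S` let `M A S x n` be the number of primes `p ≤ n` in `S` with `W A x p` prime, and let
`V S n` be the sum of `log p / p` over the primes `p ≤ n` in `S`.  We prove that for every positive `C ^ 2`
function `A` and almost every `x > 0` the number of primes `p ≤ n` with `W A x p` prime is
`(e ^ γ / log α) log n + O((log n) ^ (1/2) (log log n) ^ (5/2))`, where `α = (x + √(x ^ 2 + 4)) / 2` is the
dominant root, that for every set `S` and almost every `x` there are infinitely many such primes `p` in `S`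
if and only if `V S n` is unbounded, and that in this case
`M A S x n = (e ^ γ / log α) V S n + O((V K) ^ (1/2) (log (V K)) ^ 2)` with `V = V S n`, `K = log log n`.
-/

namespace Pool.Agent.Results.MP_5893d7_nt.LucasLaw

open Filter Topology MeasureTheory Asymptotics

/-- The Lucas numbers. -/
def L : ℕ → ℕ
  | 0 => 2
  | 1 => 1
  | (n + 2) => L (n + 1) + L n

/-- The Lucas polynomials: `T 1 n` is the Lucas number with the index `n`. -/
noncomputable def T (x : ℝ) : ℕ → ℝ
  | 0 => 2
  | 1 => x
  | (n + 2) => x * T x (n + 1) + T x n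

/-- The product, with multiplicity, of the prime factors of `m` that are larger than `p`. -/
def roughPart (p m : ℕ) : ℕ := (m.primeFactorsList.filter (fun r => p < r)).prod

/-- The `p`-rough part of `⌊A x * T x p⌋`. -/
noncomputable def W (A : ℝ → ℝ) (x : ℝ) (p : ℕ) : ℕ := roughPart p ⌊A x * T x p⌋₊

open Classical in
/-- The number of primes `p ≤ n` in the set `S` for which `W A x p` is prime. -/
noncomputable def M (A : ℝ → ℝ) (S : Set ℕ) (x : ℝ) (n : ℕ) : ℕ :=
  ((Finset.range (n + 1)).filter (fun p => p.Prime ∧ p ∈ S ∧ (W A x p).Prime)).card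

open Classical in
/-- The sum of `log p / p` over the primes `p ≤ n` in the set `S`. -/
noncomputable def V (S : Set ℕ) (n : ℕ) : ℝ :=
  ∑ p ∈ (Finset.range (n + 1)).filter (fun p => p.Prime ∧ p ∈ S), Real.log p / p

lemma T_eq (x : ℝ) : ∀ n : ℕ, T x n = Pool.Agent.W66C.lV x n
  | 0 => rfl
  | 1 => rfl
  | (n + 2) => by
      show x * T x (n + 1) + T x n = x * Pool.Agent.W66C.lV x (n + 1) + Pool.Agent.W66C.lV x n
      rw [T_eq x (n + 1), T_eq x n]

lemma V_eq (S : Set ℕ) (n : ℕ) : V S n = Pool.Agent.TH888.R.VS S n := by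
  classical
  unfold V Pool.Agent.TH888.R.VS
  rw [Finset.sum_filter]
  refine Finset.sum_congr rfl fun p _ => ?_
  by_cases h : p.Prime ∧ p ∈ S
  · rw [if_pos h, if_pos ⟨h.2, h.1⟩]
    rfl
  · rw [if_neg h, if_neg fun h1 => h ⟨h1.2, h1.1⟩]

lemma T_one (n : ℕ) : T 1 n = (L n : ℝ) := by
  induction n using Nat.twoStepInduction with
  | zero => simp [T, L]
  | one => simp [T, L]
  | more n h1 h2 =>
    show 1 * T 1 (n + 1) + T 1 n = ((L (n + 1) + L n : ℕ) : ℝ)
    rw [h1, h2]
    push_cast
    ring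

lemma luc_eq (n : ℕ) : Pool.Agent.H447R2.ML.V 1 n = L n := by
  induction n using Nat.twoStepInduction with
  | zero => rfl
  | one => rfl
  | more n h1 h2 =>
    show _ = L (n + 1) + L n
    rw [Pool.Agent.H447R2.ML.V_add_two, h1, h2]
    ring

/-- At `x = 1` the number `W` is the Lucas number. -/
lemma W_luc {A : ℝ → ℝ} (hA : A 1 = 1) {p : ℕ} (hp : p.Prime) (h5 : 5 ≤ p) :
    W A 1 p = L p := by
  have hd : ¬ p ∣ 1 := fun h => hp.one_lt.ne' (Nat.dvd_one.1 h)
  have h : Pool.Agent.H305R2.roughPart p ⌊A 1 * T 1 p⌋₊ = L p := by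
    rw [hA, one_mul, T_one, Nat.floor_natCast]
    refine Pool.Agent.H447R2.ML.roughPart_eq_self ?_ fun q hq h => ?_
    · rw [← luc_eq]
      exact (Pool.Agent.H447R2.ML.V_pos 1 p one_pos).ne'
    · rw [← luc_eq] at h
      exact Pool.Agent.H447R2.ML.lt_of_dvd_V 1 hp h5 hd hq
        (fun h' => hq.one_lt.ne' (Nat.dvd_one.1 h')) h
  exact h

lemma M_eq (A : ℝ → ℝ) (S : Set ℕ) (x : ℝ) (n : ℕ) :
    M A S x n = Pool.Agent.TH888.R.cS S (fun p => ⌊A x * Pool.Agent.W66C.lV x p⌋₊) n := by
  classical
  unfold M Pool.Agent.TH888.R.cS W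
  simp only [T_eq]
  rfl

lemma W_eq (A : ℝ → ℝ) (x : ℝ) (p : ℕ) :
    W A x p = Pool.Agent.H305R2.roughPart p ⌊A x * Pool.Agent.W66C.lV x p⌋₊ := by
  unfold W
  rw [T_eq]
  rfl

/-- For `A 1 = 1` and `x = 1` the values are the Lucas numbers, and along every positive `C ^ 2` curve
of amplitudes the law holds with a square root error term for almost every real parameter `x > 0`; for
every set of primes the number of prime values is finite or infinite according to the weight of the set,
and in the second case it obeys the corresponding law. -/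
theorem result :
    (∀ A : ℝ → ℝ, A 1 = 1 → ∀ p : ℕ, p.Prime → 5 ≤ p → W A 1 p = L p) ∧
    (∀ A : ℝ → ℝ, ContDiffOn ℝ 2 A (Set.Ioi 0) → (∀ x : ℝ, 0 < x → 0 < A x) →
      (∀ᵐ x : ℝ, 0 < x →
        (fun n : ℕ => (M A Set.univ x n : ℝ) -
          Real.exp Real.eulerMascheroniConstant / Real.log ((x + Real.sqrt (x ^ 2 + 4)) / 2) *
            Real.log n) =O[atTop]
        (fun n : ℕ => Real.sqrt (Real.log n) * (Real.log (Real.log n)) ^ ((5 : ℝ) / 2))) ∧
      (∀ S : Set ℕ, Tendsto (V S) atTop atTop → ∀ᵐ x : ℝ, 0 < x →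
        (fun n : ℕ => (M A S x n : ℝ) -
          Real.exp Real.eulerMascheroniConstant / Real.log ((x + Real.sqrt (x ^ 2 + 4)) / 2) *
            V S n) =O[atTop]
        (fun n : ℕ => Real.sqrt (V S n * Real.log (Real.log n)) *
          (Real.log (V S n * Real.log (Real.log n))) ^ 2)) ∧
      (∀ S : Set ℕ, ∀ᵐ x : ℝ, 0 < x →
        ({p : ℕ | p.Prime ∧ p ∈ S ∧ (W A x p).Prime}.Infinite ↔ Tendsto (V S) atTop atTop))) := by
  have hV : ∀ S, V S = Pool.Agent.TH888.R.VS S := fun S => funext fun n => V_eq S n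
  refine ⟨fun A hA p hp h5 => W_luc hA hp h5, fun A hA hpos => ⟨?_, fun S hS => ?_, fun S => ?_⟩⟩
  · filter_upwards [Pool.Agent.TH888.C.pt_V_curve Set.univ hA hpos] with x hx h0
    obtain ⟨B, hB, h⟩ := (hx h0).law Pool.Agent.TH888.R.VS_univ_tendsto
    simp only [M_eq]
    exact Pool.Agent.TH888.R.bigO_all hB h
  · rw [hV] at hS ⊢
    filter_upwards [Pool.Agent.TH888.C.pt_V_curve S hA hpos] with x hx h0
    obtain ⟨B, hB, h⟩ := (hx h0).law hS
    simp only [M_eq]
    exact Pool.Agent.TH888.R.bigO_set hB hS h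
  · rw [hV]
    filter_upwards [Pool.Agent.TH888.C.pt_V_curve S hA hpos] with x hx h0
    simp only [W_eq]
    constructor
    · intro hi
      by_contra hn
      exact hi ((hx h0).fin hn)
    · exact (hx h0).inf

end Pool.Agent.Results.MP_5893d7_nt.LucasLaw
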